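import Pool.Agent.Helper9.CC.Defs
import Pool.Agent.Helper9.FL.Stm

/-!
Project CC (helper9): packages.
-/

set_option autoImplicit false

namespace Pool.Agent.Helper9.CC

open FF Module MvPolynomial Pool.Agent.Helper9.FJ Pool.Agent.Helper9.PP Pool.Agent.Helper9.FL

/-- Package WT: weights of the monomials of sections (from HN for the dual bundles, and MIX). -/
def S_WT : Prop := ∀ {K : Type} [Field K] [Algebra ℂ K] [IsFF ℂ K] {l : ℕ} {r : Fin l → ℕ}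
    (E : ∀ j, Bundle K (r j)), (∀ j, 0 < r j) →
    ∃ (G : ∀ j, Matrix (Fin (r j)) (Fin (r j)) K) (m : Vr r → ℝ), (∀ j, (G j).det ≠ 0) ∧
      (∀ j, ∑ i, m ⟨j, i⟩ = ddeg (E j).detDiv) ∧
      ∀ (a : Fin l → ℕ) (b : Place ℂ K →₀ ℤ) (s : MvPolynomial (Vr r) K), IsSecM E a b s →
        ∀ α, coeff α (coord G s) ≠ 0 → -(ddeg b : ℝ) ≤ ∑ x, (α x : ℝ) * m x

/-- Package GEN: the genus is `0` or `1` (from WT). -/
def S_GEN : Prop := ∀ {K : Type} [Field K] [Algebra ℂ K] [IsFF ℂ K] {l : ℕ} {r : Fin l → ℕ}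
    {E : ∀ j, Bundle K (r j)} (Δ : Bdry E) (W : Place ℂ K →₀ ℤ), (∀ j, 0 < r j) → IsCY Δ W →
    KltGeneric Δ → ddeg W ≤ 0

/-- Package RRB: vector bundles of degree `≥ 0` over curves of genus `0` or `1` have sections, up to
a twist of degree `0`. -/
def S_RRB : Prop := ∀ {K : Type} [Field K] [Algebra ℂ K] [IsFF ℂ K] {n : ℕ} (F : Bundle K n)
    (W : Place ℂ K →₀ ℤ), IsCanonical W → ddeg W ≤ 0 → 0 < n → 0 ≤ ddeg F.detDiv →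
    ∃ N0 : Place ℂ K →₀ ℤ, ddeg N0 = 0 ∧ ∃ v : Fin n → K, v ≠ 0 ∧
      ∀ P i, Ge P (-N0 P) (Matrix.vecMul v ((F.B P)⁻¹) i)

/-- Package SYM: symmetric powers. -/
def S_SYM : Prop := ∀ {K : Type} [Field K] [Algebra ℂ K] [IsFF ℂ K] {r : ℕ} (E : Bundle K r)
    (q : ℕ) (N : Place ℂ K →₀ ℤ), 0 < r → ∃ (n : ℕ) (F : Bundle K n), 0 < n ∧
      (ddeg F.detDiv : ℝ) = n * (q * (ddeg E.detDiv / r : ℝ) + ddeg N) ∧
      ∀ N0 : Place ℂ K →₀ ℤ, (∃ v : Fin n → K, v ≠ 0 ∧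
        ∀ P i, Ge P (-N0 P) (Matrix.vecMul v ((F.B P)⁻¹) i)) →
        ∃ s : MvPolynomial (Fin r) K, s ≠ 0 ∧ IsSec E q (N + N0) s

/-- Package EFF: effective classes (from RRB, SYM). -/
def S_EFF : Prop := ∀ {K : Type} [Field K] [Algebra ℂ K] [IsFF ℂ K] {l : ℕ} {r : Fin l → ℕ}
    (E : ∀ j, Bundle K (r j)) (W : Place ℂ K →₀ ℤ), IsCanonical W → ddeg W ≤ 0 →
    (∀ j, 0 < r j) → ∀ (j : Fin l) (q : ℕ) (n : ℤ),
    0 ≤ q * (ddeg (E j).detDiv / r j : ℝ) + n →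
    ∃ (b : Place ℂ K →₀ ℤ) (s : MvPolynomial (Vr r) K), ddeg b = n ∧ s ≠ 0 ∧
      IsSecM E (Pi.single j q) b s

/-- Package AMP: the ample line bundles, and the rational numbers `μ j` (from MIN, and `mu_min`,
`pos`, `va`). -/
def S_AMP : Prop := ∀ {K : Type} [Field K] [Algebra ℂ K] [IsFF ℂ K] {l : ℕ} {r : Fin l → ℕ}
    (E : ∀ j, Bundle K (r j)) (W : Place ℂ K →₀ ℤ), IsCanonical W → (∀ j, 2 ≤ r j) →
    ∃ μ : Fin l → ℚ, (∀ j, (μ j : ℝ) ≤ (ddeg (E j).detDiv / r j : ℝ)) ∧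
      ∀ (a : Fin l → ℕ) (b : Place ℂ K →₀ ℤ), IsAmpleM E a b ↔
        (∀ j, 0 < a j) ∧ 0 < ∑ j, a j * (μ j : ℝ) + ddeg b

/-- Package NEF: the nef cone (topology). -/
def S_NEF : Prop := ∀ {K : Type} [Field K] [Algebra ℂ K] [IsFF ℂ K] {l : ℕ} {r : Fin l → ℕ}
    (E : ∀ j, Bundle K (r j)) (μ : Fin l → ℚ),
    (∀ (a : Fin l → ℕ) (b : Place ℂ K →₀ ℤ), IsAmpleM E a b ↔
        (∀ j, 0 < a j) ∧ 0 < ∑ j, a j * (μ j : ℝ) + ddeg b) →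
    Nef E = {x | (∀ j, 0 ≤ x.1 j) ∧ 0 ≤ ∑ j, x.1 j * (μ j : ℝ) + x.2}

/-- Package PERM: the group permutes the primitive generators of a simplicial cone (linear
algebra). -/
def S_PERM : Prop := ∀ {l : ℕ} (v : Fin (l + 1) → NS l), LinearIndependent ℝ v →
    (∀ i, v i ∈ Lat l) → (∀ i (c : ℝ), 0 < c → c • v i ∈ Lat l → 1 ≤ c) →
    ∀ g : NS l ≃ₗ[ℝ] NS l, (∀ x, x ∈ Lat l ↔ g x ∈ Lat l) →
    (∀ x, x ∈ cone (Set.range v) ↔ g x ∈ cone (Set.range v)) →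
    ∃ σ : Equiv.Perm (Fin (l + 1)), ∀ i, g (v i) = v (σ i)

/-- Package ORD: fundamental domains for groups of permutations of coordinates (stabilizer chain:
`x k ≥ x i` for the `i` in the orbit of `k` under the stabilizer of `0, ..., k - 1`; such a cone is
spanned by the indicators of the sets closed upwards). -/
def S_ORD : Prop := ∀ {N : ℕ} (Γ : Subgroup (Equiv.Perm (Fin N))),
    ∃ T : Finset (Finset (Fin N)), ∃ D : Set (Fin N → ℝ),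
      (∀ x, x ∈ D ↔ ∃ c : Finset (Fin N) → ℝ, (∀ t, 0 ≤ c t) ∧
        ∀ i, x i = ∑ t ∈ T, if i ∈ t then c t else 0) ∧
      (∀ x : Fin N → ℝ, (∀ i, 0 ≤ x i) → ∃ σ ∈ Γ, (fun i => x (σ i)) ∈ D) ∧
      ∀ σ ∈ Γ, σ ≠ 1 → ∀ x, x ∈ interior D → (fun i => x (σ i)) ∉ interior D

/-- Package DOM: fundamental domains for simplicial cones (from PERM, ORD). -/
def S_DOM : Prop := ∀ {l : ℕ} (v : Fin (l + 1) → NS l), LinearIndependent ℝ v →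
    (∀ i, v i ∈ Lat l) → (∀ i (c : ℝ), 0 < c → c • v i ∈ Lat l → 1 ≤ c) →
    ∀ Γ : Subgroup (NS l ≃ₗ[ℝ] NS l), (∀ g ∈ Γ, ∀ x, x ∈ Lat l ↔ g x ∈ Lat l) →
    (∀ g ∈ Γ, ∀ x, x ∈ cone (Set.range v) ↔ g x ∈ cone (Set.range v)) →
    ∃ S : Finset (NS l), IsDomain' Γ (cone (Set.range v)) S

/-- Package GENR: the primitive generators of the cone. -/
def S_GENR : Prop := ∀ {l : ℕ} (μ : Fin l → ℚ), ∃ v : Fin (l + 1) → NS l,
    LinearIndependent ℝ v ∧ (∀ i, v i ∈ Lat l) ∧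
    (∀ i (c : ℝ), 0 < c → c • v i ∈ Lat l → 1 ≤ c) ∧
    cone (Set.range v) = {x | (∀ j, 0 ≤ x.1 j) ∧ 0 ≤ ∑ j, x.1 j * (μ j : ℝ) + x.2} ∧
    v 0 = (0, 1) ∧ ∀ j : Fin l, ∃ q : ℕ, 0 < q ∧ ∃ n : ℤ, (n : ℝ) = -(q * μ j : ℝ) ∧
      v j.succ = (Pi.single j (q : ℝ), (n : ℝ))

end Pool.Agent.Helper9.CC
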