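import Pool.Agent.Helper9.CC.Defs

/-!
Calabi-Yau pairs on fibre products of projective bundles over curves: log canonical pairs.
-/

set_option autoImplicit false

namespace Pool.Agent.Helper9.CC

open FF Module MvPolynomial Pool.Agent.Helper9.FJ Pool.Agent.Helper9.PP

variable {K : Type} [Field K] [Algebra ℂ K] [IsFF ℂ K] {l : ℕ} {r : Fin l → ℕ}

/-- A condition which holds if the pair `(X, Δ)` is log canonical, in particular if it is klt: for all
systems `G` of coordinates of the generic fibre of `X → C` and all weights `w ≥ 0` of the coordinates,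
not all `0`, but one in each group `0`, the order of `Δ` along the weighted blow-up is at most the log
discrepancy `∑ w`. (The order of `s i` is the smallest weight of a monomial of `s i`.) -/
def LcGeneric {E : ∀ j, Bundle K (r j)} (Δ : Bdry E) : Prop :=
  ∀ (G : ∀ j, Matrix (Fin (r j)) (Fin (r j)) K) (w : Vr r → ℝ), (∀ j, (G j).det ≠ 0) →
    (∀ x, 0 ≤ w x) → (∀ j, ∃ i, w ⟨j, i⟩ = 0) → (∃ x, w x ≠ 0) →
    ∃ α : Fin Δ.q → (Vr r →₀ ℕ), (∀ i, coeff (α i) (coord G (Δ.s i)) ≠ 0) ∧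
      ∑ i, Δ.c i * ∑ x, (α i x : ℝ) * w x ≤ ∑ x, w x

/-- Package GEN2: the genus is `0` or `1` (from WT). -/
def S_GEN2 : Prop := ∀ {K : Type} [Field K] [Algebra ℂ K] [IsFF ℂ K] {l : ℕ} {r : Fin l → ℕ}
    {E : ∀ j, Bundle K (r j)} (Δ : Bdry E) (W : Place ℂ K →₀ ℤ), (∀ j, 0 < r j) → IsCY Δ W →
    LcGeneric Δ → ddeg W ≤ 0

end Pool.Agent.Helper9.CC
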