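import Pool.Agent.Helper9.PP.Defs

/-!
Calabi-Yau pairs on fibre products of projective bundles over curves, and their nef cones.
-/

set_option autoImplicit false

namespace Pool.Agent.Helper9.CC

open FF Module MvPolynomial Pool.Agent.Helper9.FJ Pool.Agent.Helper9.PP

variable {K : Type} [Field K] [Algebra ℂ K] [IsFF ℂ K] {l : ℕ} {r : Fin l → ℕ}

/-- The real Néron-Severi space of the fibre product `X → C` of `l` projective bundles (of ranks
`≥ 2`): the class of the line bundle `O(a) ⊗ π^* O(b)` is `(a, deg b)`, see `cls`. -/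
abbrev NS (l : ℕ) : Type := (Fin l → ℝ) × ℝ

/-- The numerical class of the line bundle `O(a) ⊗ π^* O(b)`. -/
noncomputable def cls (a : Fin l → ℕ) (b : Place ℂ K →₀ ℤ) : NS l := (fun j => (a j : ℝ), (ddeg b : ℝ))

/-- The classes of the line bundles on `X`. -/
def Lat (l : ℕ) : Set (NS l) := {v | (∀ j, ∃ n : ℤ, v.1 j = n) ∧ ∃ n : ℤ, v.2 = n}

/-- The convex cone spanned by a set. -/
def cone (S : Set (NS l)) : Set (NS l) :=
  {x | ∃ (n : ℕ) (c : Fin n → ℝ) (v : Fin n → NS l), (∀ i, 0 ≤ c i) ∧ (∀ i, v i ∈ S) ∧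
    x = ∑ i, c i • v i}

/-- The nef cone of `X`, the closure of the cone spanned by the classes of the ample line
bundles. -/
def Nef (E : ∀ j, Bundle K (r j)) : Set (NS l) :=
  closure (cone {x | ∃ a b, IsAmpleM E a b ∧ x = cls a b})

/-- The effective cone of `X`, spanned by the classes of the line bundles which have sections
`≠ 0`. -/
def Eff (E : ∀ j, Bundle K (r j)) : Set (NS l) :=
  cone {x | ∃ a b s, s ≠ 0 ∧ IsSecM E a b s ∧ x = cls a b}

/-- The nef effective cone. -/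
def NefEff (E : ∀ j, Bundle K (r j)) : Set (NS l) := Nef E ∩ Eff E

/-- An effective divisor `∑ c i • D i` with real coefficients on `X`, `D i` the divisor of the
section `s i ≠ 0` of the line bundle `O(a i) ⊗ π^* O(b i)`. -/
structure Bdry (E : ∀ j, Bundle K (r j)) where
  q : ℕ
  c : Fin q → ℝ
  a : Fin q → Fin l → ℕ
  b : Fin q → Place ℂ K →₀ ℤ
  s : Fin q → MvPolynomial (Vr r) K
  c_nonneg : ∀ i, 0 ≤ c i
  ne : ∀ i, s i ≠ 0
  sec : ∀ i, IsSecM E (a i) (b i) (s i)

/-- `K_X + Δ` is numerically trivial, `K_X = O(-r 1, ..., -r l) ⊗ π^* (K_C + ∑ det (E j))`. -/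
def IsCY {E : ∀ j, Bundle K (r j)} (Δ : Bdry E) (W : Place ℂ K →₀ ℤ) : Prop :=
  (∀ j, ∑ i, Δ.c i * Δ.a i j = r j) ∧
    ∑ i, Δ.c i * (ddeg (Δ.b i) : ℝ) + ddeg W + ∑ j, (ddeg (E j).detDiv : ℝ) = 0

/-- The section `s` on the generic fibre of `X → C` in the coordinates given by the invertible
matrices `G`. -/
noncomputable def coord (G : ∀ j, Matrix (Fin (r j)) (Fin (r j)) K) (s : MvPolynomial (Vr r) K) :
    MvPolynomial (Vr r) K :=
  aeval (fun x : Vr r => ∑ i, C (G x.1 x.2 i) * X ⟨x.1, i⟩) s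

/-- A condition which holds if the pair `(X, Δ)` is klt: for all systems `G` of coordinates of the
generic fibre and all weights `w ≥ 0` of the coordinates, not all `0`, but one in each group `0`, the
order of `Δ` along the weighted blow-up is smaller than the log discrepancy `∑ w`. (The order of `s i`
is the smallest weight of a monomial of `s i`.) -/
def KltGeneric {E : ∀ j, Bundle K (r j)} (Δ : Bdry E) : Prop :=
  ∀ (G : ∀ j, Matrix (Fin (r j)) (Fin (r j)) K) (w : Vr r → ℝ), (∀ j, (G j).det ≠ 0) →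
    (∀ x, 0 ≤ w x) → (∀ j, ∃ i, w ⟨j, i⟩ = 0) → (∃ x, w x ≠ 0) →
    ∃ α : Fin Δ.q → (Vr r →₀ ℕ), (∀ i, coeff (α i) (coord G (Δ.s i)) ≠ 0) ∧
      ∑ i, Δ.c i * ∑ x, (α i x : ℝ) * w x < ∑ x, w x

/-- The finite set `S` of classes of line bundles spans a cone `Π ⊆ A` which is a fundamental domain
for the action of the group `Γ` on `A`: the `g Π` cover `A`, and the interiors of `Π` and `g Π` are
disjoint for `g ≠ 1`. -/
def IsDomain' (Γ : Subgroup (NS l ≃ₗ[ℝ] NS l)) (A : Set (NS l)) (S : Finset (NS l)) : Prop :=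
  (∀ v ∈ S, v ∈ Lat l) ∧ cone (S : Set (NS l)) ⊆ A ∧
    (∀ x ∈ A, ∃ g ∈ Γ, ∃ y ∈ cone (S : Set (NS l)), x = g y) ∧
    (∀ g ∈ Γ, ∀ y ∈ cone (S : Set (NS l)), g y ∈ A) ∧
    ∀ g ∈ Γ, g ≠ 1 → Disjoint (interior (cone (S : Set (NS l))))
      (interior (g '' cone (S : Set (NS l))))

end Pool.Agent.Helper9.CC
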