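import Pool.Agent.Helper9.CC.Main2
import Pool.Agent.Helper90.FJ.Dual

/-!
Calabi-Yau pairs on fibre products of projective bundles over curves, and their nef cones: the
definitions of `Pool.Agent.Helper9.CC.Defs` in a shorter form.
-/

set_option autoImplicit false

namespace Pool.Agent.Helper9.CC.Final

open FF Module MvPolynomial Pool.Agent.Helper9.FJ Pool.Agent.Helper9.PP Pool.Agent.Helper9.CC

variable {K : Type} [Field K] [Algebra ℂ K] {l : ℕ} {r : Fin l → ℕ}

/-- The degree of a divisor of the curve. -/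
def degree (D : Place ℂ K →₀ ℤ) : ℤ := D.sum fun _ n => n

/-- The canonical divisors of the curve, characterised by the theorem of Riemann and Roch
`l(D) - l(W - D) = deg D + 1 - g`. -/
def Canonical [IsFF ℂ K] (W : Place ℂ K →₀ ℤ) : Prop :=
  ∃ γ : ℤ, ∀ D : Place ℂ K →₀ ℤ, ell D - ell (W - D) = degree D - γ

/-- The numerical class of the line bundle `O(a) ⊗ π^* O(b)`. -/
noncomputable def cl (a : Fin l → ℕ) (b : Place ℂ K →₀ ℤ) : NS l :=
  (fun j => (a j : ℝ), (degree b : ℝ))

/-- The nef cone of `X`, the closure of the cone spanned by the classes of the ample line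
bundles. -/
def NefCone (E : ∀ j, Bundle K (r j)) : Set (NS l) :=
  closure (cone {x | ∃ a b, IsAmpleM E a b ∧ x = cl a b})

/-- The effective cone of `X`, spanned by the classes of the line bundles which have sections
`≠ 0`. -/
def EffCone (E : ∀ j, Bundle K (r j)) : Set (NS l) :=
  cone {x | ∃ a b s, s ≠ 0 ∧ IsSecM E a b s ∧ x = cl a b}

/-- The nef effective cone. -/
def NefEffCone (E : ∀ j, Bundle K (r j)) : Set (NS l) := NefCone E ∩ EffCone E

/-- `K_X + Δ` is numerically trivial, `K_X = O(-r 1, ..., -r l) ⊗ π^* (K_C + ∑ det (E j))`. -/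
def CalabiYau {E : ∀ j, Bundle K (r j)} (Δ : Bdry E) (W : Place ℂ K →₀ ℤ) : Prop :=
  (∀ j, ∑ i, Δ.c i * Δ.a i j = r j) ∧
    ∑ i, Δ.c i * (degree (Δ.b i) : ℝ) + degree W + ∑ j, (degree (E j).detDiv : ℝ) = 0

/-- The group of the linear automorphisms of the Néron-Severi space. -/
abbrev GLN (l : ℕ) : Type := NS l ≃ₗ[ℝ] NS l

/-- `g` maps `A` onto `A`. -/
def Preserves (g : GLN l) (A : Set (NS l)) : Prop := ∀ x, x ∈ A ↔ g x ∈ A

/-- The image of the set `A` under `g`. -/
def translate (g : GLN l) (A : Set (NS l)) : Set (NS l) := {x | ∃ y ∈ A, x = g y}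

/-- The interiors of `A` and `B` are disjoint. -/
def Apart (A B : Set (NS l)) : Prop := interior A ∩ interior B = ∅

/-- The sets `g P` with `g` in the group `Γ` cover `A`, they are contained in `A`, and the interiors of
`P` and `g P` are disjoint for `g ≠ 1`. -/
def IsFundamental (Γ : Subgroup (GLN l)) (A P : Set (NS l)) : Prop :=
  (∀ x ∈ A, ∃ g ∈ Γ, x ∈ translate g P) ∧ (∀ g ∈ Γ, translate g P ⊆ A) ∧
    ∀ g ∈ Γ, g ≠ 1 → Apart P (translate g P)

/-- There is a cone `P`, contained in `A` and spanned by finitely many classes of line bundles, which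
is a fundamental domain for the action of `Γ` on `A`. -/
def HasDomain (Γ : Subgroup (GLN l)) (A : Set (NS l)) : Prop :=
  ∃ S : Finset (NS l), (∀ v ∈ S, v ∈ Lat l) ∧ cone (S : Set (NS l)) ⊆ A ∧
    IsFundamental Γ A (cone (S : Set (NS l)))

/-- For all groups of automorphisms of `N^1(X)` which preserve the classes of line bundles and the
cone `A` there is a rational polyhedral fundamental domain. -/
def ConeConjecture (A : Set (NS l)) : Prop :=
  ∀ Γ : Subgroup (GLN l), (∀ g ∈ Γ, Preserves g (Lat l) ∧ Preserves g A) → HasDomain Γ A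

section

variable [IsFF ℂ K]

theorem degree_eq (D : Place ℂ K →₀ ℤ) : degree D = ddeg D := by
  rw [degree, ddeg]
  refine Finsupp.sum_congr fun P _ => ?_
  rw [Pool.Agent.Helper90.FJ.deg_one, Nat.cast_one, mul_one]

theorem cl_eq (a : Fin l → ℕ) (b : Place ℂ K →₀ ℤ) : cl a b = cls a b := by
  rw [cl, cls, degree_eq]

theorem nef_eq (E : ∀ j, Bundle K (r j)) : NefCone E = Nef E := by
  simp only [NefCone, Nef, cl_eq]

theorem eff_eq (E : ∀ j, Bundle K (r j)) : EffCone E = Eff E := by
  simp only [EffCone, Eff, cl_eq]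

theorem canonical_iff (W : Place ℂ K →₀ ℤ) : Canonical W ↔ IsCanonical W := by
  simp only [Canonical, IsCanonical, degree_eq]

theorem cy_iff {E : ∀ j, Bundle K (r j)} (Δ : Bdry E) (W : Place ℂ K →₀ ℤ) :
    CalabiYau Δ W ↔ IsCY Δ W := by
  simp only [CalabiYau, IsCY, degree_eq]

end

theorem hasDomain {Γ : Subgroup (GLN l)} {A : Set (NS l)} {S : Finset (NS l)}
    (h : IsDomain' Γ A S) : HasDomain Γ A := by
  obtain ⟨h1, h2, h3, h4, h5⟩ := h
  refine ⟨S, h1, h2, fun x hx => h3 x hx, ?_, ?_⟩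
  · rintro g hg x ⟨y, hy, rfl⟩
    exact h4 g hg y hy
  · intro g hg hg1
    have h6 : translate g (cone (S : Set (NS l))) = g '' cone (S : Set (NS l)) := by
      ext x
      constructor
      · rintro ⟨y, hy, rfl⟩
        exact ⟨y, hy, rfl⟩
      · rintro ⟨y, hy, rfl⟩
        exact ⟨y, hy, rfl⟩
    rw [Apart, h6]
    exact Set.disjoint_iff_inter_eq_empty.1 (h5 g hg hg1)

end Pool.Agent.Helper9.CC.Final
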