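import Pool.Agent.Helper9.CC.Stm

/-!
Project CC (helper9): the assembly.
-/

set_option autoImplicit false

namespace Pool.Agent.Helper9.CC

open FF Module MvPolynomial Pool.Agent.Helper9.FJ Pool.Agent.Helper9.PP Pool.Agent.Helper9.FL

theorem cone_mono {l : ℕ} {S T : Set (NS l)} (h : S ⊆ T) : cone S ⊆ cone T := by
  rintro x ⟨n, c, v, hc, hv, rfl⟩
  exact ⟨n, c, v, hc, fun i => h (hv i), rfl⟩

theorem cone_main (gen : S_GEN) (eff : S_EFF) (amp : S_AMP) (nef : S_NEF) (genr : S_GENR)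
    (dom : S_DOM) {K : Type} [Field K] [Algebra ℂ K] [IsFF ℂ K] {l : ℕ} (hl : 0 < l)
    {r : Fin l → ℕ} (hr : ∀ j, 2 ≤ r j) {E : ∀ j, Bundle K (r j)} {W : Place ℂ K →₀ ℤ}
    (hW : IsCanonical W) (Δ : Bdry E) (hCY : IsCY Δ W) (hklt : KltGeneric Δ) :
    NefEff E = Nef E ∧ ∀ Γ : Subgroup (NS l ≃ₗ[ℝ] NS l),
      (∀ g ∈ Γ, ∀ x, x ∈ Lat l ↔ g x ∈ Lat l) →
      (∀ g ∈ Γ, ∀ x, x ∈ NefEff E ↔ g x ∈ NefEff E) →
      ∃ S : Finset (NS l), IsDomain' Γ (NefEff E) S := by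
  have hr0 : ∀ j, 0 < r j := fun j => by have := hr j; omega
  have hg := gen Δ W hr0 hCY hklt
  obtain ⟨μ, hμ, hamp⟩ := amp E W hW hr
  have hnef := nef E μ hamp
  obtain ⟨v, hli, hlat, hprim, hcone, hv0, hv⟩ := genr μ
  have hN : Nef E = cone (Set.range v) := by rw [hnef, hcone]
  have hsub : Set.range v ⊆ {x : NS l | ∃ a b s, s ≠ 0 ∧ IsSecM E a b s ∧ x = cls a b} := by
    rintro _ ⟨i, rfl⟩
    refine Fin.cases ?_ (fun j => ?_) i
    · obtain ⟨b, s, hb, hs, hsec⟩ := eff E W hW hg hr0 ⟨0, hl⟩ 0 1 (by simp)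
      refine ⟨_, b, s, hs, hsec, ?_⟩
      rw [hv0, cls, hb]
      refine Prod.ext ?_ ?_
      · funext i
        simp
      · simp
    · obtain ⟨q, hq, n, hn, hvj⟩ := hv j
      obtain ⟨b, s, hb, hs, hsec⟩ := eff E W hW hg hr0 j q n (by
        have h1 : (q : ℝ) * (μ j : ℝ) ≤ q * (ddeg (E j).detDiv / r j : ℝ) :=
          mul_le_mul_of_nonneg_left (hμ j) (Nat.cast_nonneg q)
        rw [hn]
        linarith)
      refine ⟨_, b, s, hs, hsec, ?_⟩
      rw [hvj, cls, hb]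
      refine Prod.ext ?_ rfl
      funext i
      show (Pi.single j (q : ℝ) : Fin l → ℝ) i = ((Pi.single j q : Fin l → ℕ) i : ℝ)
      rw [Pi.single_apply, Pi.single_apply]
      split_ifs <;> simp
  have hE : NefEff E = cone (Set.range v) := by
    rw [NefEff, hN]
    exact Set.inter_eq_left.2 (cone_mono hsub)
  refine ⟨by rw [hE, hN], fun Γ h1 h2 => ?_⟩
  rw [hE] at h2 ⊢
  exact dom v hli hlat hprim Γ h1 h2

end Pool.Agent.Helper9.CC
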